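import Pool.Agent.Results.MP_042ec1_co.BoundedCw
import Pool.Agent.Results.MP_042ec1_co.S123Bounded

/-!
The `(K_3, P_1 + S_{1,1,3})`-free atoms and the `(K_3, S_{1,2,3})`-free atoms have bounded
clique-width.
-/

set_option autoImplicit false

open SimpleGraph Pool.Agent.Helper856.Lcw Pool.Agent.Helper856.Cw Pool.Agent.H333R2.St

namespace Pool.Agent.Results.MP_43eff6_co.AtomsBounded

/-- An atom: a connected graph such that deleting any clique (possibly empty) does not leave a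
disconnected graph. -/
def IsAtom {V : Type} (G : SimpleGraph V) : Prop :=
  G.Connected ∧ ∀ K : Set V, G.IsClique K → (G.induce Kᶜ).Preconnected

/-- For both `H₂ = P_1 + S_{1,1,3}` and `H₂ = S_{1,2,3}` the class of `(K_3, H₂)`-free atoms has
bounded clique-width. -/
theorem result : ∀ (n : ℕ) (H₂ : SimpleGraph (Fin n)),
    (Nonempty (H₂ ≃g P1_S113) ∨ Nonempty (H₂ ≃g S123)) →
    ∃ c : ℕ, ∀ (V : Type) [Finite V] (G : SimpleGraph V),
      IsAtom G → G.CliqueFree 3 → ¬ H₂.IsIndContained G → cliqueWidth G ≤ c := by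
  intro n H₂ h
  rcases h with ⟨⟨e⟩⟩ | ⟨⟨e⟩⟩
  · obtain ⟨c, hc⟩ := MP_042ec1_co.BoundedCw.result
    refine ⟨c, fun V _ G _ hK hF => (hc V G hK ?_).1⟩
    rintro ⟨f⟩
    exact hF ⟨f.comp e.toEmbedding⟩
  · obtain ⟨c, hc⟩ := MP_042ec1_co.S123Bounded.result
    refine ⟨c, fun V _ G _ hK hF => hc V G hK ?_⟩
    rintro ⟨f⟩
    exact hF ⟨f.comp e.toEmbedding⟩

end Pool.Agent.Results.MP_43eff6_co.AtomsBounded
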